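import Pool.Agent.Run7.h599.TraceIneqCore

/-!
# A multivariate trace inequality for positive operators (MP_ebd556_mp)

For positive semidefinite `d × d` matrices `A_1, …, A_n` we prove
`L(A) ≥ R(A)`, where
`L(A) = Tr √(∑ A_j²) - ∑ Tr A_j` and
`R(A) = ∑_{j<k} (‖A_j - A_k‖₁ - Tr (A_j + A_k))`.
So the inequality asked for in Q1 holds with `c = 1` for every `n`.
The core inequality is in the helper file; here `Q = √(∑ A_j²) + ε` and `ε → 0`.
-/

open Matrix
open scoped MatrixOrder ComplexOrder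

namespace Pool.Agent.Results.MP_ebd556_mp.TraceIneq

open Run7.h599.TraceIneq

/-- The trace norm `‖X‖₁ = Tr |X| = Tr √(X* X)` of a complex matrix (`CFC.abs X = √(X* X)`). -/
noncomputable def traceNorm {d : ℕ} (X : Matrix (Fin d) (Fin d) ℂ) : ℝ :=
  (Matrix.trace (CFC.abs X)).re

/-- `L(A_1, …, A_n) = Tr √(∑ A_j²) - ∑ Tr A_j`. -/
noncomputable def L {n d : ℕ} (A : Fin n → Matrix (Fin d) (Fin d) ℂ) : ℝ :=
  (Matrix.trace (CFC.sqrt (∑ j, A j ^ 2))).re - ∑ j, (Matrix.trace (A j)).re

/-- `R(A_1, …, A_n) = ∑_{j < k} (‖A_j - A_k‖₁ - Tr (A_j + A_k))`. -/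
noncomputable def R {n d : ℕ} (A : Fin n → Matrix (Fin d) (Fin d) ℂ) : ℝ :=
  ∑ j, ∑ k with j < k, (traceNorm (A j - A k) - (Matrix.trace (A j + A k)).re)


theorem main_ineq {n d : ℕ} (A : Fin n → Matrix (Fin d) (Fin d) ℂ) (hA : ∀ j, (A j).PosSemidef) :
    R A ≤ L A := by
  set S : M d := CFC.sqrt (∑ j, A j ^ 2) with hS
  have hsq : (0 : M d) ≤ ∑ j, A j ^ 2 := by
    refine Finset.sum_nonneg (fun j _ => ?_)
    have := (posSemidef_conjTranspose_mul_self (A j)).nonneg
    rwa [(hA j).1.eq, ← sq] at this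
  have hS0 : (0 : M d) ≤ S := CFC.sqrt_nonneg _
  have hSS : S * S = ∑ j, A j * A j := by
    rw [hS, CFC.sqrt_mul_sqrt_self _ hsq]
    simp only [sq]
  have hbound : ∀ ε : ℝ, 0 < ε →
      ∑ j, rt (A j) - (rt S + ε * rt (1 : M d)) ≤ - R A := by
    intro ε hε
    have hQ : (S + ε • (1 : M d)).PosDef := by
      refine Matrix.PosDef.posSemidef_add hS0.posSemidef ?_
      exact Matrix.PosDef.smul Matrix.PosDef.one hε
    have hQA : ((S + ε • (1 : M d)) * (S + ε • (1 : M d)) - ∑ j, A j * A j).PosSemidef := by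
      have e : (S + ε • (1 : M d)) * (S + ε • (1 : M d)) - ∑ j, A j * A j
          = (2 * ε) • S + (ε * ε) • (1 : M d) := by
        rw [← hSS]
        simp only [add_mul, mul_add, Matrix.smul_mul, Matrix.mul_smul, one_mul, mul_one, smul_smul]
        module
      rw [e]
      exact (hS0.posSemidef.smul (by positivity)).add (Matrix.PosSemidef.one.smul (by positivity))
    have h := core A hA _ hQ hQA
    rw [rt_add, rt_smul] at h
    have h2 : (1/2) * ∑ j, ∑ k, (if j = k then 0 else
        (rt (A j + A k) - rt (CFC.abs (A j - A k)))) = - R A := by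
      rw [half_sum (fun j k => rt (A j + A k) - rt (CFC.abs (A j - A k)))]
      · unfold R traceNorm rt
        simp only [← Finset.sum_neg_distrib, neg_sub]
      · intro j k
        rw [add_comm (A j) (A k), ← neg_sub (A k) (A j), CFC.abs_neg]
    rw [h2] at h
    exact h
  have hlim : ∑ j, rt (A j) - rt S ≤ - R A := by
    refine le_of_forall_pos_le_add (fun δ hδ => ?_)
    have hone : 0 ≤ rt (1 : M d) := rt_nonneg Matrix.PosSemidef.one
    have h := hbound (δ / (rt (1 : M d) + 1)) (by positivity)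
    have h3 : δ / (rt (1 : M d) + 1) * rt (1 : M d) ≤ δ := by
      rw [div_mul_eq_mul_div, div_le_iff₀ (by positivity)]
      nlinarith
    linarith
  unfold L
  change R A ≤ rt S - ∑ j, rt (A j)
  linarith

/-- **Q1 with `c = 1`, for every number `n` of operators and every dimension `d`.** -/
theorem result : ∀ (n d : ℕ) (A : Fin n → Matrix (Fin d) (Fin d) ℂ),
    (∀ j, (A j).PosSemidef) → L A ≥ R A :=
  fun _ _ A hA => main_ineq A hA

end Pool.Agent.Results.MP_ebd556_mp.TraceIneq
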